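import Mathlib
import Pool.Agent.H31.Spec

set_option autoImplicit false
open Matrix Finset SimpleGraph

namespace Pool.Agent.Results.MP_1392dc_co.Counter

/-- The wheel with a hub and a rim cycle on l vertices (it has l + 1 vertices). -/
def wheel (l : ℕ) : SimpleGraph (Option (Fin l)) where
  Adj
    | none, none => False
    | some a, some b => (cycleGraph l).Adj a b
    | _, _ => True
  symm := ⟨by rintro (_ | a) (_ | b) h; exacts [h, trivial, trivial, h.symm]⟩
  loopless := ⟨by rintro (_ | a) h; exacts [h, h.ne rfl]⟩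

def H (b : ℕ) : SimpleGraph (Bool × Fin b × Bool) where
  Adj x y := x.1 ≠ y.1 ∨ (x.2.1 = y.2.1 ∧ x.1 = y.1 ∧ x.2.2 ≠ y.2.2)
  symm := ⟨fun _ _ h => h.imp Ne.symm fun h => ⟨h.1.symm, h.2.1.symm, h.2.2.symm⟩⟩
  loopless := ⟨by simp⟩

instance (b : ℕ) : DecidableRel (H b).Adj := fun i j => by unfold H; infer_instance

theorem result (m₀ : ℕ) : ∃ (V : Type) (_ : Fintype V) (_ : DecidableEq V) (G : SimpleGraph V)
    (_ : DecidableRel G.Adj), m₀ ≤ G.edgeFinset.card ∧ (∀ v, ∃ w, G.Adj v w) ∧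
    (∀ l, 4 ≤ l → ¬ wheel l ⊑ G) ∧
    (2 - 1 + √(4 * G.edgeFinset.card - 2 ^ 2 + 1)) / 2 < sSup (spectrum ℝ (G.adjMatrix ℝ)) := by
  obtain ⟨b, hb, b0⟩ : ∃ b, m₀ ≤ b ∧ 0 < b := ⟨m₀ + 1, by omega, by omega⟩
  have reg : (H b).IsRegularOfDegree (2 * b + 1) := fun v => by
    have : (H b).neighborFinset v = insert (v.1, v.2.1, !v.2.2) ({!v.1} ×ˢ univ) := by
      ext ⟨x, y, z⟩
      obtain ⟨p, q, r⟩ := v
      cases p <;> cases r <;> cases x <;> cases z <;> simp [H, eq_comm]
    rw [degree, this, card_insert_of_notMem (by simp)]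
    simp [mul_comm]
  have e : (H b).edgeFinset.card = 2 * b * (2 * b + 1) := by
    have := (H b).sum_degrees_eq_twice_card_edges
    simp [reg.degree_eq] at this
    nlinarith
  refine ⟨_, inferInstance, inferInstance, H b, inferInstance, by nlinarith,
    fun v => ⟨(!v.1, v.2), by simp [H]⟩, fun l hl ⟨f⟩ => ?_, ?_⟩
  · obtain ⟨l, rfl⟩ : ∃ k, l = k + 4 := ⟨l - 4, by omega⟩
    have pr : ∀ x y z, (H b).Adj x y → (H b).Adj x z → x.1 = y.1 → x.1 = z.1 → y = z := by
      rintro ⟨p, q, r⟩ ⟨x, y, z⟩ ⟨x', y', z'⟩ a b ⟨⟩ ⟨⟩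
      cases r <;> cases z <;> cases z' <;> simp_all [H]
    obtain ⟨p, hp⟩ : ∃ p, ∀ i, i ≠ p → (f none).1 ≠ (f (some i)).1 := by
      by_contra c
      push Not at c
      obtain ⟨i, -, hi⟩ := c 0
      obtain ⟨j, hj, hj2⟩ := c i
      exact hj (Option.some.inj (f.injective (pr _ _ _ (f.toHom.map_adj (v := none) trivial)
        (f.toHom.map_adj (v := none) trivial) hj2 hi)))
    have n1 : p + 1 ≠ p := by simp
    have n2 : p + 1 + 1 ≠ p := by rw [add_assoc]; simp [Fin.ext_iff, Fin.val_add, Nat.mod_eq_of_lt]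
    have n3 : p + 1 + 1 + 1 ≠ p := by
      rw [add_assoc, add_assoc]; simp [Fin.ext_iff, Fin.val_add, Nat.mod_eq_of_lt]
    have n4 : p + 1 ≠ p + 1 + 1 + 1 := by
      rw [add_assoc (p + 1)]; simp [Fin.ext_iff, Fin.val_add, Nat.mod_eq_of_lt]
    have s : ∀ i j, i ≠ p → j ≠ p → (f (some i)).1 = (f (some j)).1 := fun i j a b => by
      have := hp i a; have := hp j b
      revert this; revert this
      cases (f none).1 <;> cases (f (some i)).1 <;> cases (f (some j)).1 <;> simp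
    exact n4 (Option.some.inj (f.injective (pr (f (some (p + 1 + 1))) _ _
      (f.toHom.map_adj (v := some _) (w := some _) (cycleGraph_adj.mpr (by simp)))
      (f.toHom.map_adj (v := some _) (w := some _) (cycleGraph_adj.mpr (by simp)))
      (s _ _ n2 n1) (s _ _ n2 n3))))
  · refine lt_of_lt_of_le ?_ (le_csSup finite_real_spectrum.bddAbove (H31.Spec.mem_spec
      (μ := (2 * b + 1 : ℕ)) (Function.const _ 1) (fun h => by
        simpa using congrFun h (true, ⟨0, b0⟩, true)) (funext fun v => by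
        rw [adjMatrix_mulVec_const_apply_of_regular reg]; simp)))
    rw [e, div_lt_iff₀ two_pos, ← lt_sub_iff_add_lt', Real.sqrt_lt' (by
      have := Nat.cast_nonneg (α := ℝ) b; push_cast; linarith)]
    push_cast
    nlinarith

end Pool.Agent.Results.MP_1392dc_co.Counter
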